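import Pool.Agent.Q136.NCC.Stm

/-!
# Project NCC (helper136), job PEV: arcs from hyperplanes, even order
-/

set_option autoImplicit false

open Finset Polynomial

namespace Pool.Agent.Q153.NCC

open Pool.Agent.Q136.RNC Pool.Agent.Q136.NCC

theorem t_PEV : S_PEV := by
  intro F _ _ k hchar hk
  classical
  haveI : CharP F 2 := by
    have := ringChar.charP F
    rwa [hchar] at this
  letI : Algebra (ZMod 2) F := ZMod.algebra F 2
  obtain ⟨lam, hlam⟩ : ∃ lam : F →ₗ[ZMod 2] ZMod 2, lam 1 = 1 := by
    by_contra hcon
    push Not at hcon
    have h1 : (1 : F) = 0 := (Module.forall_dual_apply_eq_zero_iff (ZMod 2) (1 : F)).1 fun φ => by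
      have h2 := hcon φ
      have h3 : ∀ x : ZMod 2, x ≠ 1 → x = 0 := by decide
      exact h3 _ h2
    exact one_ne_zero h1
  have hz : ∀ x : ZMod 2, x = 1 ∨ x = 0 := by decide
  -- the hyperplane
  have hT : 2 * (univ.filter fun s : F => lam s = 1).card = Fintype.card F := by
    have h1 : (univ.filter fun s : F => lam s = 1).card = (univ.filter fun s : F => ¬ lam s = 1).card := by
      refine Finset.card_bij (fun s _ => s + 1) ?_ ?_ ?_
      · intro s hs
        rw [mem_filter] at hs ⊢
        refine ⟨mem_univ _, ?_⟩
        rw [map_add, hs.2, hlam]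
        decide
      · intro a _ b _ hab
        exact add_right_cancel hab
      · intro b hb
        rw [mem_filter] at hb
        refine ⟨b + 1, ?_, ?_⟩
        · rw [mem_filter]
          refine ⟨mem_univ _, ?_⟩
          rcases hz (lam b) with h | h
          · exact absurd h hb.2
          · rw [map_add, h, hlam]
            decide
        · rw [add_assoc, one_add_one_eq_two, CharTwo.two_eq_zero, add_zero]
    have h2 := Finset.card_filter_add_card_filter_not (s := (univ : Finset F)) (fun s : F => lam s = 1)
    rw [Finset.card_univ] at h2
    omega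
  obtain ⟨c, hc⟩ : ∃ c : F, lam c ≠ ((k - 1 : ℕ) : ZMod 2) := by
    rcases hz ((k - 1 : ℕ) : ZMod 2) with h | h
    · refine ⟨0, ?_⟩
      rw [map_zero, h]
      decide
    · refine ⟨1, ?_⟩
      rw [hlam, h]
      decide
  refine ⟨fun i => (if (i : ℕ) + 2 = k then 1 else 0) + (if (i : ℕ) + 1 = k then c else 0),
    univ.filter fun s : F => lam s = 1, hT, ?_, ?_⟩
  · intro R hR hRk h0
    have e1 : ∀ f : F[X], fn (fun i : Fin k => (if (i : ℕ) + 2 = k then (1 : F) else 0) +
        (if (i : ℕ) + 1 = k then c else 0)) f = f.coeff (k - 2) + c * f.coeff (k - 1) := by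
      intro f
      unfold fn
      rw [LinearMap.sum_apply]
      simp only [LinearMap.smul_apply, Polynomial.lcoeff_apply, smul_eq_mul, add_mul]
      rw [Finset.sum_add_distrib]
      congr 1
      · rw [Finset.sum_eq_single (⟨k - 2, by omega⟩ : Fin k)]
        · simp only
          rw [if_pos (by omega), one_mul]
        · intro b _ hb
          rw [if_neg, zero_mul]
          intro h
          apply hb
          ext
          simp only
          omega
        · intro h
          exact absurd (mem_univ _) h
      · rw [Finset.sum_eq_single (⟨k - 1, by omega⟩ : Fin k)]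
        · simp only
          rw [if_pos (by omega)]
        · intro b _ hb
          rw [if_neg, zero_mul]
          intro h
          apply hb
          ext
          simp only
          omega
        · intro h
          exact absurd (mem_univ _) h
    rw [e1] at h0
    have e2 : (pr R).coeff (k - 2) = -∑ s ∈ R, s := by
      have := Polynomial.prod_X_sub_C_coeff_card_pred R (fun s : F => s) (by omega)
      rw [show R.card - 1 = k - 2 by omega] at this
      exact this
    have e3 : (pr R).coeff (k - 1) = 1 := by
      have h1 : (pr R).Monic := Polynomial.monic_prod_of_monic _ _ fun s _ => Polynomial.monic_X_sub_C s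
      have h2 : (pr R).natDegree = k - 1 := by
        unfold pr
        rw [Polynomial.natDegree_prod_of_monic _ _ fun s _ => Polynomial.monic_X_sub_C s]
        simp only [Polynomial.natDegree_X_sub_C, Finset.sum_const, smul_eq_mul, mul_one]
        omega
      have h3 := h1.coeff_natDegree
      rwa [h2] at h3
    rw [e2, e3, mul_one] at h0
    have h4 : c = ∑ s ∈ R, s := by
      have := sub_eq_zero.1 (by rw [sub_eq_add_neg, add_comm]; exact h0 : c - ∑ s ∈ R, s = 0)
      exact this
    apply hc
    rw [h4, map_sum, Finset.sum_congr rfl fun s hs => (mem_filter.1 (hR hs)).2, Finset.sum_const, nsmul_eq_mul,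
      mul_one]
    congr 1
    omega
  · rintro t ⟨a, ha, hP⟩
    cases t with
    | some s =>
      have h1 := congrFun hP ⟨0, by omega⟩
      simp only [Pi.smul_apply, nrc, pow_zero, smul_eq_mul, mul_one] at h1
      rw [if_neg (by omega), if_neg (by omega), add_zero] at h1
      exact ha h1.symm
    | none =>
      have h1 := congrFun hP ⟨k - 2, by omega⟩
      simp only [Pi.smul_apply, nrc, smul_eq_mul] at h1
      rw [if_pos (by omega), if_neg (by omega), if_neg (by omega), add_zero, mul_zero] at h1
      exact one_ne_zero h1

end Pool.Agent.Q153.NCC
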